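import Pool.Agent.Y184.NT.St

/-!
# Project NT: Cayley–Bacharach for points and products of linear forms
-/

set_option autoImplicit false

namespace Pool.Agent.Y153.NT

open Pool.Agent.Y184.NT

section

variable {Ω : Type} [Field Ω] {N : ℕ} {ι : Type}

lemma exists_functional (W : Submodule Ω (Fin N → Ω)) (x : Fin N → Ω) (hx : x ∉ W) :
    ∃ l : Module.Dual Ω (Fin N → Ω), (∀ y ∈ W, l y = 0) ∧ l x ≠ 0 := by
  obtain ⟨f, hf, hf'⟩ := Submodule.exists_dual_map_eq_bot_of_notMem hx inferInstance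
  refine ⟨f, fun y hy => ?_, hf⟩
  have h1 : f y ∈ W.map f := Submodule.mem_map_of_mem hy
  rw [hf'] at h1
  exact (Submodule.mem_bot Ω).mp h1

lemma exists_sep (x y : Fin N → Ω) (h : LinearIndependent Ω ![x, y]) :
    ∃ l : Module.Dual Ω (Fin N → Ω), l x = 0 ∧ l y ≠ 0 := by
  have h1 : y ∉ Submodule.span Ω {x} := by
    intro hy
    obtain ⟨a, ha⟩ := Submodule.mem_span_singleton.mp hy
    rw [LinearIndependent.pair_iff] at h
    have h2 := h a (-1) (by rw [ha]; simp)
    exact one_ne_zero (neg_eq_zero.mp h2.2)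
  obtain ⟨l, hl, hl'⟩ := exists_functional _ y h1
  exact ⟨l, hl x (Submodule.mem_span_singleton_self x), hl'⟩

lemma exists_prod (v : ι → Fin N → Ω) (i0 : ι) (h0 : v i0 ≠ 0) (m : ℕ) :
    ∀ T : Finset ι, (∀ i ∈ T, LinearIndependent Ω ![v i, v i0]) → T.card ≤ m →
      ∃ l : Fin m → Module.Dual Ω (Fin N → Ω), (∀ i ∈ T, ∏ k, l k (v i) = 0) ∧
        ∏ k, l k (v i0) ≠ 0 := by
  classical
  induction m with
  | zero =>
    intro T _ hT
    have : T = ∅ := Finset.card_eq_zero.mp (by omega)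
    subst this
    exact ⟨fun k => k.elim0, by simp, by simp⟩
  | succ m ih =>
    intro T hLI hT
    rcases T.eq_empty_or_nonempty with rfl | ⟨i, hi⟩
    · obtain ⟨l, hl, hl'⟩ := ih ∅ (by simp) (by simp)
      obtain ⟨l0, -, hl0⟩ := exists_functional ⊥ (v i0) (by simpa using h0)
      refine ⟨Fin.cons l0 l, by simp, ?_⟩
      rw [Fin.prod_univ_succ]
      simp only [Fin.cons_zero, Fin.cons_succ]
      exact mul_ne_zero hl0 hl'
    · obtain ⟨l, hl, hl'⟩ := ih (T.erase i) (fun j hj => hLI j (Finset.mem_of_mem_erase hj))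
        (by rw [Finset.card_erase_of_mem hi]; omega)
      obtain ⟨l0, hl0, hl0'⟩ := exists_sep _ _ (hLI i hi)
      refine ⟨Fin.cons l0 l, ?_, ?_⟩
      · intro j hj
        rw [Fin.prod_univ_succ]
        simp only [Fin.cons_zero, Fin.cons_succ]
        by_cases hji : j = i
        · rw [hji, hl0, zero_mul]
        · rw [hl j (Finset.mem_erase.mpr ⟨hji, hj⟩), mul_zero]
      · rw [Fin.prod_univ_succ]
        simp only [Fin.cons_zero, Fin.cons_succ]
        exact mul_ne_zero hl0' hl'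

lemma claim1 (m : ℕ) (S : Finset ι) (v : ι → Fin N → Ω) (c : ι → Ω) (hS : S.Nonempty)
    (hc : ∀ i ∈ S, c i ≠ 0) (hv : ∀ i ∈ S, v i ≠ 0)
    (hLI : ∀ i ∈ S, ∀ j ∈ S, i ≠ j → LinearIndependent Ω ![v i, v j])
    (hrel : ∀ l : Fin m → Module.Dual Ω (Fin N → Ω), ∑ i ∈ S, c i * ∏ k, l k (v i) = 0) :
    m + 2 ≤ S.card := by
  classical
  by_contra hlt
  obtain ⟨i0, hi0⟩ := hS
  obtain ⟨l, hl, hl'⟩ := exists_prod v i0 (hv i0 hi0) m (S.erase i0)
    (fun i hi => hLI i (Finset.mem_of_mem_erase hi) i0 hi0 (Finset.ne_of_mem_erase hi))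
    (by rw [Finset.card_erase_of_mem hi0]; omega)
  have h1 := hrel l
  rw [← Finset.add_sum_erase _ _ hi0, Finset.sum_eq_zero, add_zero] at h1
  · exact mul_ne_zero (hc i0 hi0) hl' h1
  · intro i hi
    rw [hl i hi, mul_zero]

lemma restrict_rel (m : ℕ) (S : Finset ι) (v : ι → Fin N → Ω) (c : ι → Ω)
    (hrel : ∀ l : Fin (m + 1) → Module.Dual Ω (Fin N → Ω), ∑ i ∈ S, c i * ∏ k, l k (v i) = 0)
    (l0 : Module.Dual Ω (Fin N → Ω)) [DecidablePred fun i => l0 (v i) ≠ 0]
    (l : Fin m → Module.Dual Ω (Fin N → Ω)) :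
    ∑ i ∈ S.filter (fun i => l0 (v i) ≠ 0), (c i * l0 (v i)) * ∏ k, l k (v i) = 0 := by
  have h1 := hrel (Fin.cons l0 l)
  rw [Finset.sum_filter]
  refine Eq.trans ?_ h1
  refine Finset.sum_congr rfl fun i _ => ?_
  rw [Fin.prod_univ_succ]
  simp only [Fin.cons_zero, Fin.cons_succ]
  split_ifs with h
  · rw [mul_assoc]
  · have h2 : l0 (v i) = 0 := not_not.mp h
    rw [h2, zero_mul, mul_zero]

lemma span_eq_of_LI (x y z w : Fin N → Ω) (h : LinearIndependent Ω ![x, y])
    (hx : x ∈ Submodule.span Ω {z, w}) (hy : y ∈ Submodule.span Ω {z, w}) :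
    Submodule.span Ω {x, y} = Submodule.span Ω {z, w} := by
  classical
  apply Submodule.eq_of_le_of_finrank_le
  · rw [Submodule.span_le]
    rintro u (rfl | rfl)
    · exact hx
    · exact hy
  · have h1 : Module.finrank Ω (Submodule.span Ω {x, y}) = 2 := by
      have h2 := finrank_span_eq_card h
      rw [Fintype.card_fin] at h2
      have h3 : (Set.range ![x, y]) = {x, y} := by
        ext u
        simp [eq_comm, or_comm]
      rw [h3] at h2
      exact h2
    rw [h1]
    have h3 := finrank_span_finset_le_card (R := Ω) ({z, w} : Finset (Fin N → Ω))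
    rw [Finset.coe_insert, Finset.coe_singleton] at h3
    exact h3.trans Finset.card_le_two

theorem cb_aux (m : ℕ) (v : ι → Fin N → Ω) : ∀ (S : Finset ι) (c : ι → Ω), S.Nonempty →
    (∀ i ∈ S, c i ≠ 0) → (∀ i ∈ S, v i ≠ 0) →
    (∀ i ∈ S, ∀ j ∈ S, i ≠ j → LinearIndependent Ω ![v i, v j]) →
    (∀ l : Fin m → Module.Dual Ω (Fin N → Ω), ∑ i ∈ S, c i * ∏ k, l k (v i) = 0) →
    S.card ≤ 2 * m + 1 →
    m + 2 ≤ S.card ∧ ∀ i ∈ S, ∀ j ∈ S, i ≠ j → ∀ k ∈ S, v k ∈ Submodule.span Ω {v i, v j} := by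
  classical
  induction m with
  | zero =>
    intro S c hS hc hv hLI hrel hcard
    have h1 := claim1 0 S v c hS hc hv hLI hrel
    omega
  | succ m ih =>
    intro S c hS hc hv hLI hrel hcard
    refine ⟨claim1 _ S v c hS hc hv hLI hrel, ?_⟩
    intro i hi j hj hij k hk
    by_contra hk'
    -- restriction to the support of a functional
    have key : ∀ l0 : Module.Dual Ω (Fin N → Ω),
        (S.filter (fun i => l0 (v i) ≠ 0)).Nonempty →
        (S.filter (fun i => l0 (v i) ≠ 0)).card ≤ 2 * m + 1 →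
        m + 2 ≤ (S.filter (fun i => l0 (v i) ≠ 0)).card ∧
        ∀ i ∈ S.filter (fun i => l0 (v i) ≠ 0), ∀ j ∈ S.filter (fun i => l0 (v i) ≠ 0), i ≠ j →
          ∀ k ∈ S.filter (fun i => l0 (v i) ≠ 0), v k ∈ Submodule.span Ω {v i, v j} := by
      intro l0 hne hcd
      refine ih _ (fun i => c i * l0 (v i)) hne ?_ ?_ ?_ ?_ hcd
      · intro i hi
        rw [Finset.mem_filter] at hi
        exact mul_ne_zero (hc i hi.1) hi.2
      · intro i hi
        exact hv i (Finset.mem_of_mem_filter i hi)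
      · intro i hi j hj hij
        exact hLI i (Finset.mem_of_mem_filter i hi) j (Finset.mem_of_mem_filter j hj) hij
      · intro l
        exact restrict_rel m S v c hrel l0 l
    obtain ⟨l0, hl0, hl0'⟩ := exists_functional _ _ hk'
    have hk1 : k ∈ S.filter (fun i => l0 (v i) ≠ 0) := Finset.mem_filter.mpr ⟨hk, hl0'⟩
    have hsub : S.filter (fun i => l0 (v i) ≠ 0) ⊆ (S.erase i).erase j := by
      intro s hs
      rw [Finset.mem_filter] at hs
      rw [Finset.mem_erase, Finset.mem_erase]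
      refine ⟨?_, ?_, hs.1⟩
      · rintro rfl
        exact hs.2 (hl0 _ (Submodule.subset_span (by simp)))
      · rintro rfl
        exact hs.2 (hl0 _ (Submodule.subset_span (by simp)))
    have hcd := Finset.card_le_card hsub
    rw [Finset.card_erase_of_mem (Finset.mem_erase.mpr ⟨Ne.symm hij, hj⟩),
      Finset.card_erase_of_mem hi] at hcd
    obtain ⟨hA, hB⟩ := key l0 ⟨k, hk1⟩ (by omega)
    obtain ⟨p, hp, q, hq, hpq⟩ := Finset.one_lt_card.mp (show 1 < (S.filter
      (fun i => l0 (v i) ≠ 0)).card by omega)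
    by_cases hall : ∀ s ∈ S, v s ∈ Submodule.span Ω {v p, v q}
    · apply hk'
      rw [span_eq_of_LI _ _ _ _ (hLI i hi j hj hij) (hall i hi) (hall j hj)]
      exact hall k hk
    · push Not at hall
      obtain ⟨s, hs, hs'⟩ := hall
      obtain ⟨l1, hl1, hl1'⟩ := exists_functional _ _ hs'
      have hdis : Disjoint (S.filter (fun i => l0 (v i) ≠ 0)) (S.filter (fun i => l1 (v i) ≠ 0)) := by
        rw [Finset.disjoint_left]
        intro x hx hx'
        rw [Finset.mem_filter] at hx'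
        exact hx'.2 (hl1 _ (hB p hp q hq hpq x hx))
      have hun : S.filter (fun i => l0 (v i) ≠ 0) ∪ S.filter (fun i => l1 (v i) ≠ 0) ⊆ S :=
        Finset.union_subset (Finset.filter_subset _ _) (Finset.filter_subset _ _)
      have hcu := Finset.card_le_card hun
      rw [Finset.card_union_of_disjoint hdis] at hcu
      have h2 := (key l1 ⟨s, Finset.mem_filter.mpr ⟨hs, hl1'⟩⟩ (by omega)).1
      omega

end

theorem stCB : StCB := by
  intro Ω _ N ι m S v c hS hc hv hLI hrel hcard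
  exact cb_aux m v S c hS hc hv hLI hrel hcard

end Pool.Agent.Y153.NT
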